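import Pool.Agent.W788.NV.Top

/-!
# Cutoff for the noisy voter model on graphs of bounded degree (MP_1c1c61_pr)
-/

namespace Pool.Agent.Results.MP_1c1c61_pr.CutoffBoundedDegree

open Pool.Agent.W788.NV Filter Topology

/-- Cutoff for the `q`-state noisy voter model on every sequence of connected graphs of bounded
degree, from every sequence of initial states; the window is `O(log log n)`. -/
theorem result :
    (∀ (V : Type) [Fintype V] [DecidableEq V] (G : SimpleGraph V) (q : ℕ) (θ : ℝ),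
      2 ≤ q → 0 < θ → θ < 1 → G.Connected → 2 ≤ Fintype.card V →
      ∃! μ : (V → Fin q) → ℝ, IsStat G q θ μ) ∧
    (∀ (q : ℕ) (θ : ℝ) (Δ : ℕ) (ε : ℝ), 2 ≤ q → 0 < θ → θ < 1 → 0 < ε → ε < 1 →
      ∃ C : ℝ, ∀ (V : Type) [Fintype V] [DecidableEq V] (G : SimpleGraph V) (x0 : V → Fin q)
        (μ : (V → Fin q) → ℝ), G.Connected → (∀ v, dg G v ≤ Δ) → 3 ≤ Fintype.card V →
        IsStat G q θ μ →
        tmix G q θ x0 μ ε - tmix G q θ x0 μ (1 - ε) ≤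
          Real.log (Real.log (Fintype.card V)) / θ + C ∧
        (1 / 20) * Real.log (Fintype.card V) - C ≤ tmix G q θ x0 μ ε) ∧
    (∀ (q : ℕ) (θ : ℝ) (Δ : ℕ) (V : ℕ → Type) [∀ n, Fintype (V n)] [∀ n, DecidableEq (V n)]
      (G : ∀ n, SimpleGraph (V n)) (x0 : ∀ n, V n → Fin q) (μ : ∀ n, (V n → Fin q) → ℝ),
      2 ≤ q → 0 < θ → θ < 1 → (∀ n, Fintype.card (V n) = n) →
      (∀ n, 2 ≤ n → (G n).Connected) → (∀ n v, dg (G n) v ≤ Δ) →
      (∀ n, 2 ≤ n → IsStat (G n) q θ (μ n)) →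
      ∃ T : ℕ → ℝ, Tendsto T atTop atTop ∧ ∀ ε : ℝ, 0 < ε → ε < 1 →
        Tendsto (fun n => tmix (G n) q θ (x0 n) (μ n) ε / T n) atTop (𝓝 1)) := by
  refine ⟨?_, ?_, ?_⟩
  · intro V _ _ G q θ hq h0 h1 hG h2
    exact p_sta V G q θ (by omega) h0 h1.le (dg_pos G hG h2)
  · intro q θ Δ ε hq h0 h1 hε hε1
    obtain ⟨C1, hC1⟩ := p_fin1 q θ Δ ε hq h0 h1.le hε hε1
    obtain ⟨C2, hC2⟩ := p_fin2 q θ Δ hq h0 h1.le ε hε hε1
    refine ⟨max C1 C2, ?_⟩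
    intro V _ _ G x0 μ hG hD h3 hμ
    have hd := dg_pos G hG (by omega)
    refine ⟨(hC1 V G x0 μ hd hD h3 hμ).trans ?_, le_trans ?_ (hC2 V G x0 μ hd hD h3 hμ)⟩
    · have := le_max_left C1 C2
      linarith
    · have := le_max_right C1 C2
      linarith
  · intro q θ Δ V _ _ G x0 μ hq h0 h1 hc hG hD hμ
    exact cutoff q θ Δ V G x0 μ hq h0 h1 hc hG hD hμ

end Pool.Agent.Results.MP_1c1c61_pr.CutoffBoundedDegree
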